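import Pool.Agent.U173.BM.Data
import Pool.Agent.U173.BM.B.Main

/-!
# The theorem for Borel-Moore homology
-/

set_option autoImplicit false
set_option linter.unusedSectionVars false

open Polynomial CategoryTheory AlgebraicGeometry
open scoped TensorProduct

namespace Pool.Agent.U173.BM

open Pool.Agent.H914 Pool.Agent.H914.VarClass Pool.Agent.H914.VarClass.Obj Pool.Agent.W492.BB
  Pool.Agent.W484.CK Pool.Agent.N166.MU Pool.Agent.N166.TT Pool.Agent.U231.FR.Base
  Pool.Agent.U173.SL Pool.Agent.U173.PS Pool.Agent.U173.OP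

section linear

variable {K : Type} [Field K] {M N P : Type} [AddCommGroup M] [Module K M] [AddCommGroup N]
  [Module K N] [AddCommGroup P] [Module K P]

/-- the linear map -/
def IsLin.map {f : M → N} (h : IsLin K f) : M →ₗ[K] N where
  toFun := f
  map_add' := h.1
  map_smul' := h.2

/-- the bilinear map -/
def IsTensor.map {f : M → N → P} (h : IsTensor K f) : M →ₗ[K] N →ₗ[K] P :=
  LinearMap.mk₂ K f (fun a b c => (h.2.1 c).1 a b) (fun c a b => (h.2.1 b).2 c a)
    (fun a b c => (h.1 a).1 b c) (fun c a b => (h.1 a).2 c b)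

theorem IsTensor.map_apply {f : M → N → P} (h : IsTensor K f) (a : M) (b : N) :
    h.map a b = f a b := rfl

theorem IsTensor.bijective [Module.Finite K M] {f : M → N → P} (h : IsTensor K f) :
    Function.Bijective (TensorProduct.lift h.map : M ⊗[K] N → P) := by
  classical
  let e := Module.finBasis K M
  have hsum : ∀ u : M ⊗[K] N, ∃ y : Fin (Module.finrank K M) → N, u = ∑ i, e i ⊗ₜ[K] y i := by
    intro u
    induction u using TensorProduct.induction_on with
    | zero => exact ⟨fun _ => 0, by simp⟩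
    | tmul a b =>
      refine ⟨fun i => e.repr a i • b, ?_⟩
      conv_lhs => rw [← e.sum_repr a, TensorProduct.sum_tmul]
      refine Finset.sum_congr rfl fun i _ => ?_
      rw [TensorProduct.smul_tmul]
    | add x y hx hy =>
      obtain ⟨y1, e1⟩ := hx
      obtain ⟨y2, e2⟩ := hy
      refine ⟨fun i => y1 i + y2 i, ?_⟩
      rw [e1, e2, ← Finset.sum_add_distrib]
      exact Finset.sum_congr rfl fun i _ => (TensorProduct.tmul_add _ _ _).symm
  have hlift : ∀ y : Fin (Module.finrank K M) → N,
      TensorProduct.lift h.map (∑ i, e i ⊗ₜ[K] y i) = ∑ i, f (e i) (y i) := by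
    intro y
    rw [map_sum]
    exact Finset.sum_congr rfl fun i _ => TensorProduct.lift.tmul _ _
  constructor
  · rw [← LinearMap.ker_eq_bot, LinearMap.ker_eq_bot']
    intro u hu
    obtain ⟨y, rfl⟩ := hsum u
    have h1 : (0 : P) = ∑ i, f (e i) (y i) := by rw [← hlift, hu]
    have h2 : (0 : P) = ∑ i, f (e i) ((fun _ => 0 : Fin (Module.finrank K M) → N) i) := by
      rw [← hlift]
      simp
    have h3 := (h.2.2 _ e 0).unique h1 h2
    rw [h3]
    simp
  · intro p
    obtain ⟨y, hy, -⟩ := h.2.2 _ e p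
    exact ⟨∑ i, e i ⊗ₜ[K] y i, by rw [hlift, ← hy]⟩

end linear

variable {k : Type} [Field k] {𝒱 : VarClass k} {C : TheoryData.{0, 0, 0} 𝒱 ℚ} [hC : IsChow C]
  {K : Type} [Field K] [CharZero K] {H : WeilTheoryData.{0, 0, 0} C K} [hH : IsWeil H] {G : Type}
  {ρ : Operations H G} {T : HomologyData H G}

/-- the bundled data -/
noncomputable def bun (hT : IsHomology ρ T) : B.HomologyData H G where
  CH := T.CH
  chGroup := T.chGroup
  chModule := T.chModule
  HB := T.HB
  hbGroup := T.hbGroup
  hbModule := T.hbModule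
  chGr := T.chGr
  hbGr := T.hbGr
  cl := T.cl
  op X g := (hT.action.linear X g).map
  times := T.times
  timesH := (hT.compatible.kunneth _ _).map
  slant := T.slant
  slantH E := (hT.compatible.slantH_linear _ _ E).map

theorem bun_isHomology (h : IsArithmetic ρ) (hT : IsHomology ρ T) : B.IsHomology ρ (bun hT) where
  finite := hT.graded.finite
  vanish X n hn := by
    rw [eq_bot_iff]
    intro w hw
    exact (Submodule.mem_bot K).2 (hT.graded.vanish X n w hn hw)
  cl_deg X n x hx := hT.graded.cl_deg X n x hx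
  times_deg X Y i n D hD z hz := hT.graded.times_deg X Y i n D z hD hz
  timesH_deg X Y i n a ha b hb := hT.graded.timesH_deg X Y i n a b ha hb
  slant_deg X Y i n E hE x hx := hT.graded.slant_deg X Y i n E x hE hx
  slantH_deg X Y i n E hE x hx := hT.graded.slantH_deg X Y i n E x hE hx
  cl_add X := (hT.compatible.cl_linear X).1
  cl_smul X := (hT.compatible.cl_linear X).2
  cl_times := hT.compatible.cl_times
  cl_slant := hT.compatible.cl_slant
  slantH_times := hT.compatible.slantH_times
  kunneth X Y := by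
    have := h.standard.finite X
    exact (hT.compatible.kunneth X Y).bijective
  injective := hT.action.injective
  op_cl X g n x hx := hT.action.op_cl X g n x hx
  op_times := hT.action.op_times

theorem isOnto_iff_bun (hT : IsHomology ρ T) (X : 𝒱.Obj) (n : ℤ) :
    IsOnto ρ T X n ↔ B.IsOnto ρ (bun hT) X n := Iff.rfl

theorem isInjective_iff_bun (hT : IsHomology ρ T) (X : 𝒱.Obj) (n : ℤ) :
    IsInjective T X n ↔ B.IsInjective (bun hT) X n := Iff.rfl

theorem isDeterminedBy_iff_bun (hT : IsHomology ρ T) (A Y : 𝒱.Obj) :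
    IsDeterminedBy ρ T A Y ↔ B.IsDeterminedBy ρ (bun hT) A Y := Iff.rfl

variable {I I' : Type} {X : I → 𝒱.Obj} {X' : I' → 𝒱.Obj} {Z : 𝒱.Obj} {P : I → Set (Place G)}
  {E L : I → Place G → IntermediateField ℚ (AlgebraicClosure ℚ)} {l' : List I'}

theorem apart_of_separate {v : Place G} {E L : IntermediateField ℚ (AlgebraicClosure ℚ)}
    {W : 𝒱.Obj} (hW : IsSeparateFrom ρ v E L W) : IsApart ρ v E L W := by
  obtain ⟨h1, h2, M', h3, h4, h5⟩ := hW
  exact ⟨h1, fun α a ha h0 => h2 α a ⟨ha, h0⟩, M', h3, h4, fun α a ha h0 => h5 α a ⟨ha, h0⟩⟩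

theorem system_bun (hT : IsHomology ρ T) {l : List I} (hsys : IsSystem ρ T P E L X X' Z l l') :
    B.IsSystem ρ (bun hT) P E L X X' Z l l' := by
  refine ⟨hsys.pos, hsys.character, hsys.real, hsys.le, hsys.good, hsys.pairs.imp ?_,
    fun i j hj v hv => apart_of_separate (hsys.others i j hj v hv), fun i v hv => ?_⟩
  · intro a b h0 v hv
    exact apart_of_separate (h0 v hv)
  · obtain ⟨M', h3, h4, h5⟩ := hsys.base i v hv
    exact ⟨M', h3, h4, fun α a ha h0 => h5 α a ⟨ha, h0⟩⟩

/-- **The theorem.** -/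
theorem main [IsAlgClosed K] (h : IsArithmetic ρ) (hT : IsHomology ρ T) (l : List I)
    (hsys : IsSystem ρ T P E L X X' Z l l') :
    (∀ n : ℤ, IsOnto ρ T (productOf X (productOf X' Z l') l) n ↔
        ∀ m : ℤ, n - dimension X l ≤ m → m ≤ n → IsOnto ρ T (productOf X' Z l') m) ∧
      (∀ n : ℤ, IsInjective T (productOf X (productOf X' Z l') l) n ↔
        ∀ m : ℤ, n - dimension X l ≤ m → m ≤ n → IsInjective T (productOf X' Z l') m) ∧
      (∀ i l₁, l = i :: l₁ → IsDeterminedBy ρ T (X i) (productOf X (productOf X' Z l') l₁)) :=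
  B.main h (bun_isHomology h hT) l (system_bun hT hsys)

end Pool.Agent.U173.BM
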