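import Pool.Agent.U173.OP.Defs

/-!
# The Borel-Moore homology of the products with an arbitrary variety: definitions
-/

set_option autoImplicit false

open Polynomial CategoryTheory AlgebraicGeometry

namespace Pool.Agent.U173.BM

open Pool.Agent.H914 Pool.Agent.H914.VarClass Pool.Agent.H914.VarClass.Obj Pool.Agent.W492.BB
  Pool.Agent.W484.CK Pool.Agent.N166.MU Pool.Agent.N166.TT Pool.Agent.U231.FR.Base
  Pool.Agent.U173.SL Pool.Agent.U173.PS Pool.Agent.U173.OP

section linear

variable (K : Type) [Field K] {M N P : Type} [AddCommGroup M] [Module K M] [AddCommGroup N]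
  [Module K N] [AddCommGroup P] [Module K P]

/-- The map `f` is linear. -/
def IsLin (f : M → N) : Prop :=
  (∀ x y, f (x + y) = f x + f y) ∧ ∀ (c : K) x, f (c • x) = c • f x

/-- The map `f` from a rational space is linear. -/
def IsRatLin {M : Type} [AddCommGroup M] [Module ℚ M] (f : M → N) : Prop :=
  (∀ x y, f (x + y) = f x + f y) ∧ ∀ (q : ℚ) x, f (q • x) = (q : K) • f x

/-- The bilinear map `f` is a tensor product: for every basis `e` of `M` every element of `P` is in a
unique way a sum `∑ f (e i) (y i)`. -/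
def IsTensor (f : M → N → P) : Prop :=
  (∀ a, IsLin K (f a)) ∧ (∀ b, IsLin K fun a => f a b) ∧
    ∀ (n : ℕ) (e : Module.Basis (Fin n) K M) (p : P), ∃! y : Fin n → N, p = ∑ i, f (e i) (y i)

variable {K}

/-- `y` is the multiple of `x` by `c`. -/
def IsMultiple (c : K) (x y : M) : Prop := y = c • x

variable {G : Type} (op : G → M → M)

/-- `t` is an eigenvector of `g` with eigenvalue `α`. -/
def IsEigenvector (g : G) (α : K) (t : M) : Prop := t ≠ 0 ∧ op g t = α • t

/-- The subspace `W` is stable under `G`. -/
def IsStable (W : Submodule K M) : Prop := ∀ g, ∀ t ∈ W, op g t ∈ W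

/-- The subspace `W` is supersingular at the place `v`: some power of each eigenvalue of the Frobenius
at `v` on `W` is a power of `p`. -/
def IsSupersingularOn (v : Place G) (W : Submodule K M) : Prop :=
  ∀ (α : K), ∀ t ∈ W, IsEigenvector op v.σ α t → ∃ (N : ℕ) (b : ℤ), 0 < N ∧ α ^ N = (v.p : K) ^ b

variable [CharZero K]

/-- The Frobenius eigenvalues at `v` are Weil numbers. -/
def IsPureAt (K : Type) [Field K] [Module K M] [CharZero K] (v : Place G) : Prop :=
  ∀ (α : K) t, IsEigenvector op v.σ α t → ∃ w, IsWeilNumber (v.p ^ v.m) w α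

/-- There is a slope field of the Frobenius eigenvalues at `v` which contains `E` and meets `L` in a
totally real field. -/
def MeetsInRealAt (K : Type) [Field K] [Module K M] [CharZero K] (v : Place G)
    (E L : IntermediateField ℚ (AlgebraicClosure ℚ)) : Prop :=
  ∃ M', E ≤ M' ∧ MeetInReal L M' ∧ ∀ (α : K) t, IsEigenvector op v.σ α t →
    HasSlopesIn v.p v.ι M' α

/-- The space is the direct sum of the subspace `B` (the classes of cycles) and a subspace `T` stable
under `G`, such that for all places `v` in `P` the Frobenius eigenvalues at `v` on `T` are Weil numbers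
with slope field `L v`, and such that **no nonzero subspace of `T` stable under `G` is supersingular at
all places in `P`**. -/
def IsGoodSpace (B : Submodule K M) (P : Set (Place G))
    (L : Place G → IntermediateField ℚ (AlgebraicClosure ℚ)) : Prop :=
  ∃ T : Submodule K M, IsStable op T ∧ IsCompl T B ∧
    (∀ v ∈ P, ∀ (α : K), ∀ t ∈ T, IsEigenvector op v.σ α t → HasSlopesIn v.p v.ι (L v) α ∧
      ∃ w, IsWeilNumber (v.p ^ v.m) w α) ∧
    ∀ W ≤ T, IsStable op W → (∀ v ∈ P, IsSupersingularOn op v W) → W = ⊥

end linear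

variable {k : Type} [Field k] {𝒱 : VarClass k} {C : TheoryData.{0, 0, 0} 𝒱 ℚ} {K : Type}
  [Field K]

/-- The data for a variety `U` over `k`, which need not be smooth or proper: for all `X` in the class
`𝒱` of smooth projective varieties the Chow groups `CH X` of the cycles on `X × U` (with rational
coefficients) and the Borel-Moore homology `HB X` of `X × U`, with their gradings by the dimension and
the degree, the classes of cycles, the operation of `G`, the exterior products `D × z` with classes
`D` on `X`, and the operations `x ↦ p_* (E · x)`, where `p : X × Y × U → Y × U` is the projection and `E`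
is a cycle on `X`. -/
structure HomologyData (H : WeilTheoryData.{0, 0, 0} C K) (G : Type) where
  /-- the Chow groups of `X × U` -/
  CH : 𝒱.Obj → Type
  [chGroup : ∀ X, AddCommGroup (CH X)]
  [chModule : ∀ X, Module ℚ (CH X)]
  /-- the Borel-Moore homology of `X × U` -/
  HB : 𝒱.Obj → Type
  [hbGroup : ∀ X, AddCommGroup (HB X)]
  [hbModule : ∀ X, Module K (HB X)]
  /-- the cycles of dimension `n` -/
  chGr : ∀ X, ℤ → Submodule ℚ (CH X)
  /-- the homology of degree `n` -/
  hbGr : ∀ X, ℤ → Submodule K (HB X)
  /-- the classes of cycles -/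
  cl : ∀ {X}, CH X → HB X
  /-- the operation of `G` -/
  op : ∀ X, G → HB X → HB X
  /-- exterior products of cycles -/
  times : ∀ {X Y}, C.A X → CH Y → CH (X.prod Y)
  /-- exterior products of classes -/
  timesH : ∀ {X Y}, H.A X → HB Y → HB (X.prod Y)
  /-- `x ↦ p_* (E · x)` for cycles -/
  slant : ∀ {X Y}, C.A X → CH (X.prod Y) → CH Y
  /-- `x ↦ p_* (E · x)` for classes -/
  slantH : ∀ {X Y}, C.A X → HB (X.prod Y) → HB Y

attribute [instance] HomologyData.chGroup HomologyData.chModule HomologyData.hbGroup
  HomologyData.hbModule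

variable {H : WeilTheoryData.{0, 0, 0} C K} {G : Type} (T : HomologyData H G)

/-- `x` is a cycle of dimension `n` on `X × U`. -/
def IsCycleOf (X : 𝒱.Obj) (n : ℤ) (x : T.CH X) : Prop := x ∈ T.chGr X n

/-- `w` is a class of degree `n` on `X × U`. -/
def IsClassOf (X : 𝒱.Obj) (n : ℤ) (w : T.HB X) : Prop := w ∈ T.hbGr X n

/-- The gradings: the homology is finite-dimensional, vanishes in negative degrees, and the classes
of cycles, exterior products and the classes `p_* (E · x)` have the usual degrees. An element of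
`H^i(X)` gives an element of the homology of degree `2 dim X - i`. -/
structure IsGraded : Prop where
  finite : ∀ X, Module.Finite K (T.HB X)
  vanish : ∀ X n w, n < 0 → IsClassOf T X n w → w = 0
  cl_deg : ∀ X n x, IsCycleOf T X n x → IsClassOf T X (2 * n) (T.cl x)
  times_deg : ∀ (X Y : 𝒱.Obj) (i n : ℤ) (D : C.A X) z, C.Deg i D → IsCycleOf T Y n z →
    IsCycleOf T (X.prod Y) (X.dim - i + n) (T.times D z)
  timesH_deg : ∀ (X Y : 𝒱.Obj) (i n : ℤ) (a : H.A X) b, H.Deg i a → IsClassOf T Y n b →
    IsClassOf T (X.prod Y) (2 * X.dim - i + n) (T.timesH a b)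
  slant_deg : ∀ (X Y : 𝒱.Obj) (i n : ℤ) (E : C.A X) x, C.Deg i E → IsCycleOf T (X.prod Y) n x →
    IsCycleOf T Y (n - i) (T.slant E x)
  slantH_deg : ∀ (X Y : 𝒱.Obj) (i n : ℤ) (E : C.A X) x, C.Deg i E →
    IsClassOf T (X.prod Y) n x → IsClassOf T Y (n - 2 * i) (T.slantH E x)

/-- The class map is linear and compatible with the operations, `p_* (E · (a × b))` is the multiple
of `b` by the push-forward of `a · E` to a point, and the Künneth formula holds: the homology of
`X × Y × U` is `H(X) ⊗ H(Y × U)`. -/
structure IsCompatible : Prop where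
  cl_linear : ∀ X, IsRatLin K (T.cl (X := X))
  slantH_linear : ∀ (X Y : 𝒱.Obj) (E : C.A X), IsLin K (T.slantH (Y := Y) E)
  cl_times : ∀ (X Y : 𝒱.Obj) (D : C.A X) (z : T.CH Y),
    T.cl (T.times D z) = T.timesH (H.cl D) (T.cl z)
  cl_slant : ∀ (X Y : 𝒱.Obj) (E : C.A X) (x : T.CH (X.prod Y)),
    T.cl (T.slant E x) = T.slantH E (T.cl x)
  slantH_times : ∀ (X Y : 𝒱.Obj) (a : H.A X) (E : C.A X) (b : T.HB Y) (c : K),
    IsMultiple c 1 (H.down (snd X Y) (H.up (fst X Y) (H.mul a (H.cl E)))) →
      IsMultiple c b (T.slantH E (T.timesH a b))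
  kunneth : ∀ X Y : 𝒱.Obj, IsTensor K (T.timesH (X := X) (Y := Y))

/-- The operation of `G`: by automorphisms, on the classes of cycles of dimension `n` through
`χ ^ (-n)`, and compatible with exterior products up to the twist by `dim X` (the homology is not
twisted). -/
structure IsAction (ρ : Operations H G) (T : HomologyData H G) : Prop where
  linear : ∀ X g, IsLin K (T.op X g)
  injective : ∀ X g, Function.Injective (T.op X g)
  op_cl : ∀ X g n x, IsCycleOf T X n x → IsMultiple (ρ.χ g ^ (-n)) (T.cl x) (T.op X g (T.cl x))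
  op_times : ∀ (X Y : 𝒱.Obj) g (a : H.A X) (b : T.HB Y),
    IsMultiple (ρ.χ g ^ (-(X.dim : ℤ))) (T.timesH (ρ.op X g a) (T.op Y g b))
      (T.op (X.prod Y) g (T.timesH a b))

/-- The usual properties of Chow groups and Borel-Moore homology. -/
structure IsHomology (ρ : Operations H G) (T : HomologyData H G) : Prop where
  graded : IsGraded T
  compatible : IsCompatible T
  action : IsAction ρ T

variable (ρ : Operations H G) (T : HomologyData H G)

/-- The Tate classes of dimension `n` on `X × U`: the elements of the homology of degree `2 n` on which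
`G` acts through `χ ^ (-n)`, that is, the invariants in the homology twisted by `n`. -/
def IsTateClass (X : 𝒱.Obj) (n : ℤ) (w : T.HB X) : Prop :=
  IsClassOf T X (2 * n) w ∧ ∀ g, IsMultiple (ρ.χ g ^ (-n)) w (T.op X g w)

/-- The span of the classes of cycles of dimension `n` on `X × U`. -/
def classSpan (X : 𝒱.Obj) (n : ℤ) : Submodule K (T.HB X) :=
  Submodule.span K {c | ∃ x, IsCycleOf T X n x ∧ c = T.cl x}

/-- The class map for cycles of dimension `n` on `X × U` is onto the Tate classes (after the extension
of the coefficients). -/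
def IsOnto (X : 𝒱.Obj) (n : ℤ) : Prop := ∀ w, IsTateClass ρ T X n w → w ∈ classSpan T X n

/-- Every cycle `x` on `A × Y × U` is in a unique way homologically equivalent to a sum `∑ D j × z j`
with cycles `z j` on `Y × U` (which are determined up to homological equivalence). -/
def CyclesExpandBy (A Y : 𝒱.Obj) {J : Type} [Fintype J] (deg : J → ℕ) (D : J → C.A A) : Prop :=
  ∀ n x, IsCycleOf T (A.prod Y) n x → ∃ z : J → T.CH Y,
    ((∀ j, IsCycleOf T Y (n - (A.dim - deg j)) (z j)) ∧
      T.cl x = T.cl (∑ j, T.times (D j) (z j))) ∧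
    ∀ z' : J → T.CH Y, T.cl x = T.cl (∑ j, T.times (D j) (z' j)) → ∀ j, T.cl (z' j) = T.cl (z j)

/-- Every Tate class on `A × Y × U` is in a unique way a sum `∑ cl (D j) × h j` with Tate classes
`h j` on `Y × U`. -/
def TateExpandBy (A Y : 𝒱.Obj) {J : Type} [Fintype J] (deg : J → ℕ) (D : J → C.A A) : Prop :=
  ∀ n w, IsTateClass ρ T (A.prod Y) n w → ∃! h : J → T.HB Y,
    (∀ j, IsTateClass ρ T Y (n - (A.dim - deg j)) (h j)) ∧ w = ∑ j, T.timesH (H.cl (D j)) (h j)

/-- There are finitely many cycles `D j` on `A` such that the cycles and the Tate classes on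
`A × Y × U` can be expanded by those on `Y × U`. -/
def IsDeterminedBy (A Y : 𝒱.Obj) : Prop :=
  ∃ (J : Type) (_ : Fintype J) (deg : J → ℕ) (D : J → C.A A), (∀ j, C.Deg (deg j) (D j)) ∧
    CyclesExpandBy T A Y deg D ∧ TateExpandBy ρ T A Y deg D

variable [CharZero K]

/-- Let `B` be the rational space of the classes of cycles of dimension `n` on `X × U`. The map from
`B ⊗ K` to the homology is injective: if the numbers `c s` in `K` are linearly independent over `ℚ` and
`∑ c s cl (x s) = 0`, then all `cl (x s)` are zero. -/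
def IsInjective (T : HomologyData H G) (X : 𝒱.Obj) (n : ℤ) : Prop :=
  ∀ (r : ℕ) (c : Fin r → K) (x : Fin r → T.CH X), LinearIndependent ℚ c →
    (∀ s, IsCycleOf T X n (x s)) → ∑ s, c s • T.cl (x s) = 0 → ∀ s, T.cl (x s) = 0

/-- `L` is normal over `E`, and the variety `W` is pure at `v` and has there a slope field which
contains `E` and meets `L` in a totally real field. -/
def IsSeparateFrom (v : Place G) (E L : IntermediateField ℚ (AlgebraicClosure ℚ)) (W : 𝒱.Obj) :
    Prop :=
  IsNormalOver E L ∧ IsPureAt (ρ.op W) K v ∧ MeetsInRealAt (ρ.op W) K v E L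

/-- Each `X i` is good for the set `P i` of places, with slope fields `L i v` which contain totally
real fields `E i v`. For all `v` in `P i`, the varieties `X j` with indices behind `i` in the list `l` and
the varieties `Y j`, `j` in the list `l'`, are separate from `X i` at the place `v`; and the homology of
`Z × U` has at `v` a slope field which contains `E i v` and meets `L i v` in a totally real field. -/
structure IsSystem {I I' : Type} (P : I → Set (Place G))
    (E L : I → Place G → IntermediateField ℚ (AlgebraicClosure ℚ)) (X : I → 𝒱.Obj)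
    (Y : I' → 𝒱.Obj) (Z : 𝒱.Obj) (l : List I) (l' : List I') : Prop where
  pos : ∀ i, ∀ v ∈ P i, 0 < v.m
  character : ∀ i, ∀ v ∈ P i, ρ.χ v.σ = (v.p : K) ^ v.m
  real : ∀ i, ∀ v ∈ P i, ∀ z ∈ E i v, IsTotallyReal z
  le : ∀ i, ∀ v ∈ P i, E i v ≤ L i v
  good : ∀ i, IsGoodSpace (ρ.op (X i)) (cycleSpan H (X i)) (P i) (L i)
  pairs : l.Pairwise fun i j => ∀ v ∈ P i, IsSeparateFrom ρ v (E i v) (L i v) (X j)
  others : ∀ i, ∀ j ∈ l', ∀ v ∈ P i, IsSeparateFrom ρ v (E i v) (L i v) (Y j)
  base : ∀ i, ∀ v ∈ P i, MeetsInRealAt (T.op Z) K v (E i v) (L i v)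

end Pool.Agent.U173.BM
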