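import Pool.Agent.U173.BM.Data

/-!
# The dimensions of the images and cokernels of the class maps: definitions
-/

set_option autoImplicit false

open CategoryTheory AlgebraicGeometry

namespace Pool.Agent.U173.BM

open Pool.Agent.H914 Pool.Agent.H914.VarClass Pool.Agent.H914.VarClass.Obj Pool.Agent.W492.BB
  Pool.Agent.N166.TT

/-- The dimension of the image of the subspace `A` in the quotient by the subspace `B`. -/
noncomputable def quotientDim (K : Type) [Field K] {M : Type} [AddCommGroup M] [Module K M]
    (A B : Submodule K M) : ℕ :=
  Module.finrank K (A ⧸ B.comap A.subtype)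

/-- The dimension of the span of the set `S`. -/
noncomputable def spanDim (K : Type) [Field K] {M : Type} [AddCommGroup M] [Module K M]
    (S : Set M) : ℕ :=
  Module.finrank K (Submodule.span K S)

variable {k : Type} [Field k] {𝒱 : VarClass k} {C : TheoryData.{0, 0, 0} 𝒱 ℚ} {K : Type}
  [Field K] {H : WeilTheoryData.{0, 0, 0} C K} {G : Type} (ρ : Operations H G)
  (T : HomologyData H G)

/-- The space of the Tate classes of dimension `n` on `X × U`. -/
def tateSpan (X : 𝒱.Obj) (n : ℤ) : Submodule K (T.HB X) :=
  Submodule.span K {w | IsTateClass ρ T X n w}

/-- The dimension of the image of the class map (with coefficients in `K`) for the cycles of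
dimension `n` on `X × U`. -/
noncomputable def imageDim (X : 𝒱.Obj) (n : ℤ) : ℕ := Module.finrank K (classSpan T X n)

/-- The dimension of the cokernel of the class map (with coefficients in `K`) for the cycles of
dimension `n` on `X × U`: the quotient of the space of Tate classes by the span of the classes of
cycles. It is zero if and only if the class map is onto. -/
noncomputable def cokernelDim (X : 𝒱.Obj) (n : ℤ) : ℕ :=
  quotientDim K (tateSpan ρ T X n) (classSpan T X n)

/-- The dimension of the span of the classes of cycles of dimension `n` in the cohomology of the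
smooth projective variety `X`. -/
noncomputable def cycleRank (H : WeilTheoryData.{0, 0, 0} C K) (X : 𝒱.Obj) (n : ℕ) : ℕ :=
  spanDim K {c : H.A X | ∃ D, C.Deg (X.dim - n) D ∧ c = H.cl D}

/-- The polynomial with the coefficients `cycleRank`. -/
noncomputable def rankSeries (H : WeilTheoryData.{0, 0, 0} C K) (X : 𝒱.Obj) : PowerSeries ℕ :=
  PowerSeries.mk (cycleRank H X)

/-- The power series with the coefficients `imageDim`. -/
noncomputable def imageSeries (X : 𝒱.Obj) : PowerSeries ℕ := PowerSeries.mk fun n => imageDim T X n

/-- The power series with the coefficients `cokernelDim`. -/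
noncomputable def cokernelSeries (X : 𝒱.Obj) : PowerSeries ℕ :=
  PowerSeries.mk fun n => cokernelDim ρ T X n

end Pool.Agent.U173.BM
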