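import Pool.Agent.U173.BM.Bridge
import Pool.Agent.U173.BM.RankDefs

/-!
# The dimensions of the images and cokernels of the class maps
-/

set_option autoImplicit false
set_option linter.unusedSectionVars false

open Polynomial CategoryTheory AlgebraicGeometry
open scoped TensorProduct

namespace Pool.Agent.U173.BM

open Pool.Agent.H914 Pool.Agent.H914.VarClass Pool.Agent.H914.VarClass.Obj Pool.Agent.W492.BB
  Pool.Agent.W484.CK Pool.Agent.N166.MU Pool.Agent.N166.TT Pool.Agent.N876.CG Pool.Agent.W550.Corr
  Pool.Agent.U231.FR.Base Pool.Agent.U173.SL Pool.Agent.U173.PS Pool.Agent.TH121.KT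
  Pool.Agent.U173.OP Pool.Agent.W484.CH

variable {k : Type} [Field k] {𝒱 : VarClass k} {C : TheoryData.{0, 0, 0} 𝒱 ℚ} [hC : IsChow C]
  {K : Type} [Field K] [CharZero K] {H : WeilTheoryData.{0, 0, 0} C K} [hH : IsWeil H] {G : Type}
  {ρ : Operations H G} {T : HomologyData H G} {A Y : 𝒱.Obj}

/-- the dimension of the span of the classes of codimension `i` -/
noncomputable def algebraicRank (H : WeilTheoryData.{0, 0, 0} C K) (X : 𝒱.Obj) (i : ℕ) : ℕ :=
  Module.finrank K (Submodule.span K {c : H.A X | ∃ D, C.Deg i D ∧ c = H.cl D})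

/-- the polynomial as a sum -/
noncomputable def rankSeries' (H : WeilTheoryData.{0, 0, 0} C K) (X : 𝒱.Obj) : PowerSeries ℕ :=
  ∑ i ∈ Finset.range (X.dim + 1),
    PowerSeries.C (algebraicRank H X i) * PowerSeries.X ^ (X.dim - i)

theorem rankSeries_eq (X : 𝒱.Obj) : rankSeries H X = rankSeries' H X := by
  ext n
  unfold rankSeries rankSeries'
  rw [PowerSeries.coeff_mk, map_sum]
  simp only [PowerSeries.coeff_C_mul, PowerSeries.coeff_X_pow]
  by_cases hn : n ≤ X.dim
  · rw [Finset.sum_eq_single (X.dim - n)]
    · rw [if_pos (by omega), mul_one]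
      unfold cycleRank algebraicRank spanDim
      have h1 : (X.dim : ℤ) - n = ((X.dim - n : ℕ) : ℤ) := by omega
      rw [h1]
    · intro i hi hne
      rw [Finset.mem_range] at hi
      rw [if_neg (by omega), mul_zero]
    · intro h0
      exact absurd (Finset.mem_range.2 (by omega)) h0
  · rw [Finset.sum_eq_zero]
    · unfold cycleRank spanDim
      have h1 : Submodule.span K {c : H.A X | ∃ D, C.Deg ((X.dim : ℤ) - n) D ∧ c = H.cl D} = ⊥ := by
        rw [Submodule.span_eq_bot]
        rintro _ ⟨D, hD, rfl⟩
        have h2 : D ∈ C.gr X ((X.dim : ℤ) - n) := hD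
        rw [C.gr_neg _ _ (by omega)] at h2
        rw [(Submodule.mem_bot _).1 h2, map_zero]
      rw [h1, finrank_bot]
    · intro i hi
      rw [Finset.mem_range] at hi
      rw [if_neg (by omega), mul_zero]

section step

variable (h : IsArithmetic ρ) (hT : IsHomology ρ T) {J : Type} [Fintype J] {deg : J → ℕ}
  {D E : J → C.A A}

include h hT in
/-- the dimension of a space which is described by its coefficients -/
theorem finrank_of_coef (hD : IsDual A Y deg D E) (S : Submodule K (T.HB (A.prod Y)))
    (S' : J → Submodule K (T.HB Y)) (h1 : ∀ w ∈ S, ∀ j, T.slantH (E j) w ∈ S' j)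
    (h2 : ∀ w ∈ S, w = ∑ j, T.timesH (H.cl (D j)) (T.slantH (E j) w))
    (h3 : ∀ j, ∀ y ∈ S' j, T.timesH (H.cl (D j)) y ∈ S) :
    Module.finrank K S = ∑ j, Module.finrank K (S' j) := by
  have hT' := bun_isHomology h hT
  have := hT.graded.finite Y
  have hadd : ∀ j (x y : T.HB (A.prod Y)), T.slantH (E j) (x + y) =
      T.slantH (E j) x + T.slantH (E j) y := fun j => (hT.compatible.slantH_linear _ _ _).1
  have hsmul : ∀ j (c : K) (x : T.HB (A.prod Y)), T.slantH (E j) (c • x) =
      c • T.slantH (E j) x := fun j => (hT.compatible.slantH_linear _ _ _).2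
  have hsum : ∀ (y : J → T.HB Y) j, T.slantH (E j) (∑ i, T.timesH (H.cl (D i)) (y i)) = y j :=
    fun y j => B.slantH_sum hT' hD y j
  let e : S ≃ₗ[K] (∀ j, S' j) :=
    { toFun := fun w j => ⟨T.slantH (E j) w, h1 w w.2 j⟩
      map_add' := fun x y => by
        funext j
        exact Subtype.ext (hadd j x y)
      map_smul' := fun c x => by
        funext j
        exact Subtype.ext (hsmul j c x)
      invFun := fun y => ⟨∑ j, T.timesH (H.cl (D j)) (y j : T.HB Y),
        Submodule.sum_mem _ fun j _ => h3 j _ (y j).2⟩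
      left_inv := fun w => Subtype.ext (h2 w w.2).symm
      right_inv := fun y => by
        funext j
        exact Subtype.ext (hsum (fun j => (y j : T.HB Y)) j) }
  rw [e.finrank_eq, Module.finrank_pi_fintype]

/-- The space of Tate classes. -/
theorem mem_tateSpan (hT : IsHomology ρ T) (X : 𝒱.Obj) (n : ℤ) (w : T.HB X) :
    w ∈ tateSpan ρ T X n ↔ IsTateClass ρ T X n w := by
  constructor
  · intro hw
    unfold tateSpan at hw
    induction hw using Submodule.span_induction with
    | mem w hw => exact hw
    | zero =>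
      refine ⟨Submodule.zero_mem _, fun g => ?_⟩
      change T.op X g 0 = _ • 0
      rw [smul_zero]
      exact (hT.action.linear X g).map.map_zero
    | add x y _ _ hx hy =>
      refine ⟨Submodule.add_mem _ hx.1 hy.1, fun g => ?_⟩
      change T.op X g (x + y) = _ • (x + y)
      rw [(hT.action.linear X g).1, hx.2, hy.2, smul_add]
    | smul c x _ hx =>
      refine ⟨Submodule.smul_mem _ _ hx.1, fun g => ?_⟩
      change T.op X g (c • x) = _ • c • x
      rw [(hT.action.linear X g).2, hx.2, smul_comm]
  · intro hw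
    exact Submodule.subset_span hw

theorem classSpan_le (hT : IsHomology ρ T) (X : 𝒱.Obj) (n : ℤ) :
    classSpan T X n ≤ tateSpan ρ T X n := by
  unfold classSpan
  refine Submodule.span_le.2 ?_
  rintro _ ⟨x, hx, rfl⟩
  exact Submodule.subset_span ⟨hT.graded.cl_deg X n x hx, fun g => hT.action.op_cl X g n x hx⟩

theorem cokernelDim_add (hT : IsHomology ρ T) (X : 𝒱.Obj) (n : ℤ) :
    cokernelDim ρ T X n + imageDim T X n = Module.finrank K (tateSpan ρ T X n) := by
  have := hT.graded.finite X
  unfold cokernelDim imageDim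
  have h1 := Submodule.finrank_quotient_add_finrank
    ((classSpan T X n).comap (tateSpan ρ T X n).subtype)
  have h2 : Module.finrank K ((classSpan T X n).comap (tateSpan ρ T X n).subtype) =
      Module.finrank K (classSpan T X n) :=
    (Submodule.comapSubtypeEquivOfLe (classSpan_le hT X n)).finrank_eq
  rw [h2] at h1
  exact h1

theorem eq_zero_of_neg (hT : IsHomology ρ T) (X : 𝒱.Obj) {n : ℤ} (hn : n < 0) :
    imageDim T X n = 0 ∧ cokernelDim ρ T X n = 0 := by
  have h1 : tateSpan ρ T X n = ⊥ := by
    rw [eq_bot_iff]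
    intro w hw
    exact hT.graded.vanish X _ w (by omega) ((mem_tateSpan hT X n w).1 hw).1
  have h2 := cokernelDim_add hT X n
  rw [h1, finrank_bot] at h2
  omega

/-- the dual system counts the classes -/
theorem card_eq (h : IsArithmetic ρ) (hD : IsDual A Y deg D E)
    (hN : ∀ n, AK H A n ≤ Submodule.span K {c | ∃ j, deg j = n ∧ c = H.cl (D j)}) (i : ℕ) :
    algebraicRank H A i = (Finset.univ.filter fun j => deg j = i).card := by
  classical
  have hnt := h.standard.nontrivial Y
  have hli : LinearIndependent K (fun j : {j // deg j = i} => H.cl (D j)) := by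
    rw [Fintype.linearIndependent_iff]
    intro c hc j
    have h1 : H.push (snd A Y) (H.pull (fst A Y) ((∑ t : {j // deg j = i}, c t • H.cl (D t)) *
        H.cl (E j))) = c j • 1 := by
      rw [Finset.sum_mul, map_sum, map_sum, Finset.sum_eq_single j]
      · rw [smul_mul_assoc, map_smul, map_smul, ← map_mul, ← H.cl_pull, ← H.cl_push, hD.eq,
          map_one]
      · intro t _ htj
        rw [smul_mul_assoc, map_smul, map_smul, ← map_mul, ← H.cl_pull, ← H.cl_push,
          hD.ne t j (fun h0 => htj (Subtype.ext h0)), map_zero, smul_zero]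
      · intro h0
        exact absurd (Finset.mem_univ j) h0
    rw [hc, zero_mul, map_zero, map_zero] at h1
    exact (smul_eq_zero.1 h1.symm).resolve_right one_ne_zero
  have hspan : Submodule.span K {c : H.A A | ∃ D, C.Deg i D ∧ c = H.cl D} =
      Submodule.span K (Set.range fun j : {j // deg j = i} => H.cl (D j)) := by
    apply le_antisymm
    · intro x hx
      refine Submodule.span_mono ?_ (hN i hx)
      rintro _ ⟨j, hj, rfl⟩
      exact ⟨⟨j, hj⟩, rfl⟩
    · refine Submodule.span_mono ?_
      rintro _ ⟨⟨j, hj⟩, rfl⟩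
      exact ⟨D j, by
        have := hD.left j
        rwa [hj] at this, rfl⟩
  unfold algebraicRank
  rw [hspan, finrank_span_eq_card hli, Fintype.card_subtype]

theorem coeff_rankSeries'_mul (S : PowerSeries ℕ) (f : ℤ → ℕ)
    (hS : ∀ n : ℕ, PowerSeries.coeff n S = f n) (hf : ∀ n : ℤ, n < 0 → f n = 0) (n : ℕ) :
    PowerSeries.coeff n (rankSeries' H A * S) =
      ∑ i ∈ Finset.range (A.dim + 1), algebraicRank H A i * f (n - (A.dim - i)) := by
  unfold rankSeries'
  rw [Finset.sum_mul, map_sum]
  refine Finset.sum_congr rfl fun i hi => ?_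
  rw [Finset.mem_range] at hi
  rw [mul_assoc, PowerSeries.coeff_C_mul, PowerSeries.coeff_X_pow_mul']
  congr 1
  split_ifs with h0
  · rw [hS]
    congr 1
    omega
  · rw [hf]
    omega

theorem sum_deg (hD : IsDual A Y deg D E) (h : IsArithmetic ρ)
    (hN : ∀ n, AK H A n ≤ Submodule.span K {c | ∃ j, deg j = n ∧ c = H.cl (D j)}) (f : ℕ → ℕ) :
    ∑ j, f (deg j) = ∑ i ∈ Finset.range (A.dim + 1), algebraicRank H A i * f i := by
  classical
  rw [← Finset.sum_fiberwise_of_maps_to (s := Finset.univ) (t := Finset.range (A.dim + 1))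
    (g := deg) (fun j _ => Finset.mem_range.2 (by have := hD.le j; omega))]
  refine Finset.sum_congr rfl fun i _ => ?_
  rw [card_eq h hD hN, Finset.sum_congr rfl (g := fun _ => f i) (fun j hj => by
    rw [(Finset.mem_filter.1 hj).2]), Finset.sum_const, smul_eq_mul]

include h hT in
/-- **The series for one step.** -/
theorem series_step (hnd : Nondeg H A)
    (hmix : ∀ (n : ℤ) w, IsTateClass ρ T (A.prod Y) n w → B.Mixed (bun hT) A Y w) :
    imageSeries T (A.prod Y) = rankSeries' H A * imageSeries T Y ∧
      cokernelSeries ρ T (A.prod Y) = rankSeries' H A * cokernelSeries ρ T Y := by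
  have hT' := bun_isHomology h hT
  obtain ⟨J, hJ, deg, D, E, hD, hN⟩ := exists_dual (isStandard_bridge h.standard) hnd Y
  have hexp : ∀ n, ∀ w, IsTateClass ρ T (A.prod Y) n w →
      w = ∑ j, T.timesH (H.cl (D j)) (T.slantH (E j) w) := fun n w hw =>
    B.expand hT' hD hN (hmix n w hw)
  have htate : ∀ n : ℤ, Module.finrank K (tateSpan ρ T (A.prod Y) n) =
      ∑ j, Module.finrank K (tateSpan ρ T Y (n - (A.dim - deg j))) := by
    intro n
    refine finrank_of_coef h hT hD _ _ (fun w hw j => ?_) (fun w hw => ?_) (fun j y hy => ?_)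
    · rw [mem_tateSpan hT] at hw ⊢
      exact B.isTateClass_coef hT' h hD hw (hexp n w hw) j
    · exact hexp n w ((mem_tateSpan hT _ _ _).1 hw)
    · rw [mem_tateSpan hT] at hy ⊢
      have h1 := B.isTateClass_times hT' h (hD.left j) hy
      have h2 : (A.dim : ℤ) - deg j + (n - (A.dim - deg j)) = n := by ring
      rw [h2] at h1
      exact h1
  have himage : ∀ n : ℤ, imageDim T (A.prod Y) n =
      ∑ j, imageDim T Y (n - (A.dim - deg j)) := by
    intro n
    refine finrank_of_coef h hT hD _ _ (fun w hw j => ?_) (fun w hw => ?_) (fun j y hy => ?_)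
    · unfold classSpan at hw
      induction hw using Submodule.span_induction with
      | mem w hw =>
        obtain ⟨x, hx, rfl⟩ := hw
        exact Submodule.subset_span ⟨T.slant (E j) x,
          hT.graded.slant_deg A Y _ _ _ _ (hD.right j) hx, (hT.compatible.cl_slant _ _ _ _).symm⟩
      | zero =>
        have h0 : T.slantH (E j) (0 : T.HB (A.prod Y)) = 0 :=
          (hT.compatible.slantH_linear A Y (E j)).map.map_zero
        rw [h0]
        exact Submodule.zero_mem _
      | add x y _ _ hx hy =>
        rw [(hT.compatible.slantH_linear A Y (E j)).1]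
        exact Submodule.add_mem _ hx hy
      | smul c x _ hx =>
        rw [(hT.compatible.slantH_linear A Y (E j)).2]
        exact Submodule.smul_mem _ _ hx
    · exact hexp n w ((mem_tateSpan hT _ _ _).1 (classSpan_le hT _ _ hw))
    · unfold classSpan at hy
      induction hy using Submodule.span_induction with
      | mem y hy =>
        obtain ⟨z, hz, rfl⟩ := hy
        refine Submodule.subset_span ⟨T.times (D j) z, ?_, (hT.compatible.cl_times _ _ _ _).symm⟩
        have h1 := hT.graded.times_deg A Y _ _ _ _ (hD.left j) hz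
        have h2 : (A.dim : ℤ) - deg j + (n - (A.dim - deg j)) = n := by ring
        rw [h2] at h1
        exact h1
      | zero =>
        have h0 : T.timesH (H.cl (D j)) (0 : T.HB Y) = 0 :=
          ((hT.compatible.kunneth A Y).1 (H.cl (D j))).map.map_zero
        rw [h0]
        exact Submodule.zero_mem _
      | add x y _ _ hx hy =>
        rw [((hT.compatible.kunneth A Y).1 (H.cl (D j))).1]
        exact Submodule.add_mem _ hx hy
      | smul c x _ hx =>
        rw [((hT.compatible.kunneth A Y).1 (H.cl (D j))).2]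
        exact Submodule.smul_mem _ _ hx
  have hcoker : ∀ n : ℤ, cokernelDim ρ T (A.prod Y) n =
      ∑ j, cokernelDim ρ T Y (n - (A.dim - deg j)) := by
    intro n
    have h1 := cokernelDim_add hT (A.prod Y) n
    rw [htate, himage, Finset.sum_congr rfl (fun j _ =>
      (cokernelDim_add hT Y (n - (A.dim - deg j))).symm), Finset.sum_add_distrib] at h1
    exact Nat.add_right_cancel h1
  constructor
  · ext n
    rw [coeff_rankSeries'_mul (imageSeries T Y) (imageDim T Y)
      (fun m => PowerSeries.coeff_mk _ _) (fun m hm => (eq_zero_of_neg hT Y hm).1)]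
    unfold imageSeries
    rw [PowerSeries.coeff_mk, himage]
    exact sum_deg hD h hN (fun i => imageDim T Y (n - (A.dim - i)))
  · ext n
    rw [coeff_rankSeries'_mul (cokernelSeries ρ T Y) (cokernelDim ρ T Y)
      (fun m => PowerSeries.coeff_mk _ _) (fun m hm => (eq_zero_of_neg hT Y hm).2)]
    unfold cokernelSeries
    rw [PowerSeries.coeff_mk, hcoker]
    exact sum_deg hD h hN (fun i => cokernelDim ρ T Y (n - (A.dim - i)))

end step

variable {I I' : Type} {X : I → 𝒱.Obj} {X' : I' → 𝒱.Obj} {Z : 𝒱.Obj} {P : I → Set (Place G)}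
  {E L : I → Place G → IntermediateField ℚ (AlgebraicClosure ℚ)} {l' : List I'}

/-- **The series.** -/
theorem series_main [IsAlgClosed K] (h : IsArithmetic ρ) (hT : IsHomology ρ T) (l : List I)
    (hsys : IsSystem ρ T P E L X X' Z l l') :
    imageSeries T (productOf X (productOf X' Z l') l) =
        (l.map fun i => rankSeries H (X i)).prod * imageSeries T (productOf X' Z l') ∧
      cokernelSeries ρ T (productOf X (productOf X' Z l') l) =
        (l.map fun i => rankSeries H (X i)).prod * cokernelSeries ρ T (productOf X' Z l') := by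
  induction l with
  | nil =>
    rw [List.map_nil, List.prod_nil, one_mul, one_mul]
    exact ⟨rfl, rfl⟩
  | cons i l ih =>
    obtain ⟨h1, h2⟩ := B.system_step h (bun_isHomology h hT) (system_bun hT hsys)
    obtain ⟨h3, h4⟩ := series_step h hT h1 h2
    obtain ⟨h5, h6⟩ := ih ⟨hsys.pos, hsys.character, hsys.real, hsys.le, hsys.good,
      (List.pairwise_cons.1 hsys.pairs).2, hsys.others, hsys.base⟩
    rw [List.map_cons, List.prod_cons, mul_assoc, mul_assoc, ← h5, ← h6, rankSeries_eq]
    exact ⟨h3, h4⟩

end Pool.Agent.U173.BM
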